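import Pool.Agent.W312.WT.Stm

/-!
# WT-SDu: neighbours in a lattice
-/
set_option autoImplicit false

namespace Pool.Agent.W782.WT

open Pool.Agent.W312.WT

theorem proof_SDu : Pool.Agent.W312.WT.SDu := by
  intro p S hp hS
  have hpR : (1 : ℝ) ≤ p := by exact_mod_cast hp
  have hmul : ∀ k : ℤ, k * p ∈ S := by
    intro k
    have h := hS.refl k 0 hS.zero
    rwa [sub_zero] at h
  have hdn : ∀ t : ℝ, ∃ m : ℤ, (m ∈ S ∧ (m : ℝ) ≤ t) ∧ ∀ s : ℤ, (s ∈ S ∧ (s : ℝ) ≤ t) → s ≤ m := by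
    intro t
    refine Int.exists_greatest_of_bdd (P := fun m : ℤ => m ∈ S ∧ (m : ℝ) ≤ t) ⟨⌊t⌋, ?_⟩ ?_
    · intro s hs
      exact Int.le_floor.2 hs.2
    · refine ⟨⌊t / p⌋ * p, hmul _, ?_⟩
      push_cast
      have h1 : (⌊t / p⌋ : ℝ) ≤ t / p := Int.floor_le _
      have h2 : (⌊t / p⌋ : ℝ) * p ≤ t / p * p := mul_le_mul_of_nonneg_right h1 (by linarith)
      rwa [div_mul_cancel₀ _ (by linarith)] at h2
  have hup : ∀ t : ℝ, ∃ m : ℤ, (m ∈ S ∧ t ≤ (m : ℝ)) ∧ ∀ s : ℤ, (s ∈ S ∧ t ≤ (s : ℝ)) → m ≤ s := by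
    intro t
    refine Int.exists_least_of_bdd (P := fun m : ℤ => m ∈ S ∧ t ≤ (m : ℝ)) ⟨⌈t⌉, ?_⟩ ?_
    · intro s hs
      exact Int.ceil_le.2 hs.2
    · refine ⟨⌈t / p⌉ * p, hmul _, ?_⟩
      push_cast
      have h1 : t / p ≤ (⌈t / p⌉ : ℝ) := Int.le_ceil _
      have h2 : t / p * p ≤ (⌈t / p⌉ : ℝ) * p := mul_le_mul_of_nonneg_right h1 (by linarith)
      rwa [div_mul_cancel₀ _ (by linarith)] at h2
  choose dn hd1 hd2 using hdn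
  choose up hu1 hu2 using hup
  exact ⟨dn, up, fun t => ⟨(hd1 t).1, (hu1 t).1, (hd1 t).2, (hu1 t).2,
    fun s hs hst => hd2 t s ⟨hs, hst⟩, fun s hs hst => hu2 t s ⟨hs, hst⟩⟩⟩

end Pool.Agent.W782.WT
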